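import Mathlib
import Pool.Agent.Lib.MP_829e7b_ag.Misc
import Pool.Agent.Lib.MP_829e7b_ag.Lims

/-!
# Generic determinantal rings are Lech-stable

Proof idea.  Write `r = t - 1`.  Sending `X` to the product `Y Z` of generic matrices with inner
dimension `r` and taking leading exponents (lexicographic order) of the image gives, after passing
to partial sums of exponents, a valuation on `K[X] / I_t` whose values are exactly the plane
partitions supported on the cells `(i, j)` with `min i j < r` (this uses standard products of minors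
and a growth-diagram form of the RSK correspondence).  Lengths are then counts of points of this
order cone outside value sets, and the inequality `l(R / I^k) <= (k + d)^d l(R / I)` is proved for
every ideal `I` primary to the maximal ideal by a monotone rounding and transport argument.
-/

set_option autoImplicit false

namespace Pool.Agent.Results.MP_829e7b_ag.LechStable

open Filter IsLocalRing
open scoped ENNReal

/-- The generic `n × m` matrix over the power series ring `K⟦x_{ij}⟧` in `n m` variables. -/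
noncomputable def genericMatrix (K : Type*) [Field K] (n m : ℕ) :
    Matrix (Fin n) (Fin m) (MvPowerSeries (Fin n × Fin m) K) :=
  Matrix.of fun i j => MvPowerSeries.X (i, j)

/-- The ideal of `K⟦x_{ij}⟧` generated by all `t × t` minors of the generic matrix. -/
noncomputable def minorIdeal (K : Type*) [Field K] (n m t : ℕ) :
    Ideal (MvPowerSeries (Fin n × Fin m) K) :=
  Ideal.span {f | ∃ (rows : Fin t ↪o Fin n) (cols : Fin t ↪o Fin m),
    f = ((genericMatrix K n m).submatrix rows cols).det}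

/-- The generic determinantal ring `R_t = K⟦X⟧ / I_t(X)`. -/
abbrev DetRing (K : Type*) [Field K] (n m t : ℕ) :=
  MvPowerSeries (Fin n × Fin m) K ⧸ minorIdeal K n m t

/-- The Krull dimension of a ring of finite Krull dimension, as a natural number. -/
noncomputable def dimension (R : Type*) [CommRing R] : ℕ := ((ringKrullDim R).unbotD 0).toNat

/-- The Hilbert-Samuel multiplicity `e(I) = lim d! l(R / I^k) / k^d` (written with `limsup`). -/
noncomputable def hsMultiplicity (R : Type*) [CommRing R] (I : Ideal R) : ℝ≥0∞ :=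
  limsup (fun k : ℕ => ((dimension R).factorial : ℝ≥0∞) *
    (Module.length R (R ⧸ I ^ k) : ℝ≥0∞) / (k : ℝ≥0∞) ^ dimension R) atTop

/-- The Lech-Mumford constant `lm(R) = sup e(I) / (d! l(R / I))` over all ideals whose radical is
the maximal ideal. -/
noncomputable def lechMumford (R : Type*) [CommRing R] [IsLocalRing R] : ℝ≥0∞ :=
  ⨆ (I : Ideal R) (_ : I.radical = maximalIdeal R),
    hsMultiplicity R I / (((dimension R).factorial : ℝ≥0∞) * (Module.length R (R ⧸ I) : ℝ≥0∞))

open Pool.Agent.Lib.MP_829e7b_ag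

theorem exists_pow_le {R : Type*} [CommRing R] [IsLocalRing R] [IsNoetherianRing R] (I : Ideal R)
    (hI : I.radical = maximalIdeal R) : ∃ N, maximalIdeal R ^ N ≤ I :=
  Ideal.exists_pow_le_of_le_radical_of_fg hI.ge (IsNoetherian.noetherian _)

theorem main_pos (K : Type*) [Field K] (n m r : ℕ) (hr : 0 < r) (hn : r + 1 ≤ n) (hm : r + 1 ≤ m)
    [IsLocalRing (RR K n m (r + 1))] :
    ringKrullDim (RR K n m (r + 1)) = (r * (n + m - r) : ℕ) ∧ lechMumford (RR K n m (r + 1)) = 1 := by
  have hdim := krullDim_eq (K := K) (n := n) (m := m) (r := r) (by omega) (by omega) hr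
  set d := Fintype.card (Cell n m r) with hd
  have hcell : d = r * (n + m - r) := card_cell n m r (by omega) (by omega)
  refine ⟨by rw [hdim, hcell], ?_⟩
  have hdN : dimension (RR K n m (r + 1)) = d := by
    unfold dimension
    rw [hdim]
    rfl
  set 𝔪 := maximalIdeal (RR K n m (r + 1)) with h𝔪
  have hlen : ∀ (I : Ideal (RR K n m (r + 1))) (N : ℕ), 𝔪 ^ N ≤ I → ∀ k,
      (Module.length (RR K n m (r + 1)) (RR K n m (r + 1) ⧸ I ^ k) : ℝ≥0∞) =
        ((Module.finrank K (RR K n m (r + 1) ⧸ I ^ k) : ℕ) : ℝ≥0∞) := by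
    intro I N hN k
    have hNk : 𝔪 ^ (N * k) ≤ I ^ k := by
      rw [pow_mul]
      exact Ideal.pow_right_mono hN k
    rw [length_eq (I ^ k) (N * k) hNk]
    rfl
  have hlen1 : ∀ (I : Ideal (RR K n m (r + 1))) (N : ℕ), 𝔪 ^ N ≤ I →
      (Module.length (RR K n m (r + 1)) (RR K n m (r + 1) ⧸ I) : ℝ≥0∞) =
        ((Module.finrank K (RR K n m (r + 1) ⧸ I) : ℕ) : ℝ≥0∞) := by
    intro I N hN
    rw [length_eq I N hN]
    rfl
  have hmult : ∀ (I : Ideal (RR K n m (r + 1))) (N : ℕ), 𝔪 ^ N ≤ I →
      hsMultiplicity (RR K n m (r + 1)) I = limsup (fun k : ℕ => (d.factorial : ℝ≥0∞) *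
        ((Module.finrank K (RR K n m (r + 1) ⧸ I ^ k) : ℕ) : ℝ≥0∞) / (k : ℝ≥0∞) ^ d) atTop := by
    intro I N hN
    unfold hsMultiplicity
    rw [hdN]
    congr 1
    funext k
    rw [hlen I N hN k]
  have hupper : ∀ (I : Ideal (RR K n m (r + 1))) (N : ℕ), 𝔪 ^ N ≤ I →
      hsMultiplicity (RR K n m (r + 1)) I ≤ (d.factorial : ℝ≥0∞) *
        ((Module.finrank K (RR K n m (r + 1) ⧸ I) : ℕ) : ℝ≥0∞) := by
    intro I N hN
    rw [hmult I N hN]
    exact limsup_le_aux d _ (fun k => Module.finrank K (RR K n m (r + 1) ⧸ I ^ k))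
      (growth_upper (by omega) (by omega) hr I N hN)
  apply le_antisymm
  · unfold lechMumford
    apply iSup₂_le
    intro I hI
    obtain ⟨N, hN⟩ := exists_pow_le I hI
    rw [hdN, hlen1 I N hN]
    apply ENNReal.div_le_of_le_mul
    rw [one_mul]
    exact hupper I N hN
  · -- lower bound through powers of the maximal ideal
    have hfd : ∀ k, FiniteDimensional K (RR K n m (r + 1) ⧸ 𝔪 ^ k) :=
      fun k => (fd_quot (𝔪 ^ k) k le_rfl).1
    refine sup_ge_aux d (fun k => Module.finrank K (RR K n m (r + 1) ⧸ 𝔪 ^ k))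
      (r * (n + m + 1)) (Nat.mul_pos hr (Nat.succ_pos _)) ?_ ?_ ((d.factorial : ℝ≥0∞) *
        ((Module.finrank K (RR K n m (r + 1) ⧸ 𝔪) : ℕ) : ℝ≥0∞)) ?_ ?_ _ ?_
    · intro M
      exact growth_lower (K := K) (by omega) (by omega) hr _ M (le_of_eq (by ring))
    · intro a b hab
      have := hfd b
      exact finrank_mono (Ideal.pow_le_pow_right hab)
    · exact ENNReal.mul_ne_top (ENNReal.natCast_ne_top _) (ENNReal.natCast_ne_top _)
    · rw [← hmult 𝔪 1 (by rw [pow_one])]
      exact hupper 𝔪 1 (by rw [pow_one])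
    · intro j hj
      have hrad : (𝔪 ^ j).radical = 𝔪 := by
        rw [Ideal.radical_pow _ hj.ne']
        exact (maximalIdeal.isMaximal _).isPrime.radical
      have h1 : hsMultiplicity (RR K n m (r + 1)) (𝔪 ^ j) /
          (((dimension (RR K n m (r + 1))).factorial : ℝ≥0∞) *
          (Module.length (RR K n m (r + 1)) (RR K n m (r + 1) ⧸ 𝔪 ^ j) : ℝ≥0∞)) ≤
          lechMumford (RR K n m (r + 1)) := by
        unfold lechMumford
        exact le_iSup₂_of_le (𝔪 ^ j) hrad le_rfl
      rw [hmult (𝔪 ^ j) j le_rfl, hdN, hlen1 (𝔪 ^ j) j le_rfl] at h1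
      have h2 : ∀ k, Module.finrank K (RR K n m (r + 1) ⧸ (𝔪 ^ j) ^ k) =
          Module.finrank K (RR K n m (r + 1) ⧸ 𝔪 ^ (j * k)) := by
        intro k
        rw [pow_mul]
      simp only [h2] at h1
      exact h1

theorem main_zero (K : Type*) [Field K] (n m : ℕ) [IsLocalRing (RR K n m (0 + 1))] :
    ringKrullDim (RR K n m (0 + 1)) = (0 : ℕ) ∧ lechMumford (RR K n m (0 + 1)) = 1 := by
  have hbot := max_one K n m
  have hdim : ringKrullDim (RR K n m (0 + 1)) = (0 : ℕ) := by
    rw [← IsLocalRing.maximalIdeal_height_eq_ringKrullDim]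
    have h := height_le (K := K) (n := n) (m := m) (r := 0)
    have h0 : Fintype.card (Cell n m 0) = 0 := by
      rw [Fintype.card_eq_zero_iff]
      exact ⟨fun p => absurd p.2 (by omega)⟩
    rw [h0] at h
    have h2 : (maximalIdeal (RR K n m (0 + 1))).height = 0 := le_antisymm (by simpa using h) bot_le
    rw [h2]
    rfl
  refine ⟨hdim, ?_⟩
  have hdN : dimension (RR K n m (0 + 1)) = 0 := by
    unfold dimension
    rw [hdim]
    rfl
  have hsimple : Module.length (RR K n m (0 + 1)) (RR K n m (0 + 1) ⧸ (⊥ : Ideal (RR K n m (0 + 1)))) = 1 := by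
    rw [Module.length_eq_one_iff, isSimpleModule_iff_isCoatom, ← hbot]
    exact (maximalIdeal.isMaximal _).out
  have hm : hsMultiplicity (RR K n m (0 + 1)) (⊥ : Ideal (RR K n m (0 + 1))) = 1 := by
    unfold hsMultiplicity
    rw [hdN]
    have h1 : Tendsto (fun k : ℕ => ((Nat.factorial 0 : ℕ) : ℝ≥0∞) *
        (Module.length (RR K n m (0 + 1)) (RR K n m (0 + 1) ⧸ (⊥ : Ideal (RR K n m (0 + 1))) ^ k) : ℝ≥0∞)
          / (k : ℝ≥0∞) ^ 0) atTop (nhds 1) := by
      apply tendsto_const_nhds.congr'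
      filter_upwards [eventually_gt_atTop 0] with k hk
      have h2 : (⊥ : Ideal (RR K n m (0 + 1))) ^ k = ⊥ := by
        exact Ideal.bot_pow hk.ne'
      rw [h2, hsimple]
      simp
    exact h1.limsup_eq
  have hI : ∀ I : Ideal (RR K n m (0 + 1)), I.radical = maximalIdeal (RR K n m (0 + 1)) ↔ I = ⊥ := by
    intro I
    rw [hbot]
    constructor
    · intro h
      exact le_bot_iff.mp (h ▸ Ideal.le_radical)
    · rintro rfl
      rw [← hbot]
      exact (maximalIdeal.isMaximal _).isPrime.radical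
  unfold lechMumford
  apply le_antisymm
  · apply iSup₂_le
    intro I h
    rw [(hI I).mp h, hm, hdN, hsimple]
    simp
  · refine le_iSup₂_of_le (⊥ : Ideal (RR K n m (0 + 1))) ((hI ⊥).mpr rfl) ?_
    rw [hm, hdN, hsimple]
    simp

/-- **Generic determinantal rings are Lech-stable.** For every field `K`, all `n, m` and every
`1 ≤ t ≤ min n m`, the ring `R_t = K⟦X⟧ / I_t(X)` is a Noetherian local ring of dimension
`(t - 1) (n + m + 1 - t)` and `lm(R_t) = 1`. -/
theorem result (K : Type*) [Field K] (n m t : ℕ) (ht : 1 ≤ t) (hn : t ≤ n) (hm : t ≤ m) :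
    IsNoetherianRing (DetRing K n m t) ∧ ∃ _ : IsLocalRing (DetRing K n m t),
      ringKrullDim (DetRing K n m t) = ((t - 1) * (n + m + 1 - t) : ℕ) ∧
      lechMumford (DetRing K n m t) = 1 := by
  refine ⟨inferInstance, ?_⟩
  have key : ∀ 𝔟 : Ideal (MvPowerSeries (Fin n × Fin m) K),
      𝔟 = (minP K n m t).map (inc (Fin n × Fin m) K) →
      ∃ _ : IsLocalRing (MvPowerSeries (Fin n × Fin m) K ⧸ 𝔟),
      ringKrullDim (MvPowerSeries (Fin n × Fin m) K ⧸ 𝔟) = ((t - 1) * (n + m + 1 - t) : ℕ) ∧
      lechMumford (MvPowerSeries (Fin n × Fin m) K ⧸ 𝔟) = 1 := by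
    rintro 𝔟 rfl
    obtain ⟨r, rfl⟩ : ∃ r, t = r + 1 := ⟨t - 1, by omega⟩
    have hloc : IsLocalRing (RR K n m (r + 1)) := RR_local (by omega)
    refine ⟨hloc, ?_⟩
    rcases Nat.eq_zero_or_pos r with h0 | hr
    · subst h0
      have h1 := main_zero K n m
      refine ⟨?_, h1.2⟩
      rw [h1.1]
      simp
    · have h1 := main_pos K n m r hr hn hm
      refine ⟨?_, h1.2⟩
      rw [h1.1]
      have h2 : (r + 1 - 1) * (n + m + 1 - (r + 1)) = r * (n + m - r) := by
        rw [Nat.add_sub_cancel, Nat.add_sub_add_right]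
      rw [h2]
  exact key _ (minorIdeal_eq K n m t)

end Pool.Agent.Results.MP_829e7b_ag.LechStable
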